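import Pool.Agent.Lib.MP_e7dab6_pr.InfCase

/-!
# Existence of the critical power for cross-neighbourhood growth

For every zero-set and every range satisfying the standing assumptions there is a number which is
both a lower and an upper power for the time at which the origin is occupied.
-/

set_option autoImplicit false

open Pool.Agent.MP_e7dab6_pr

namespace Pool.Agent.Results.MP_e7dab6_pr.CriticalPower

/-- The critical power exists for every zero-set `Z` and range `ρ` satisfying the standing
assumptions. -/
theorem result (ρ : ℕ) (Z : Set (ℕ × ℕ)) (h : Standing ρ Z) :
    ∃ γ : ℝ, 0 < γ ∧ IsLowerPower ρ Z γ ∧ IsUpperPower ρ Z γ := by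
  by_cases hw : width Z = ⊤
  · exact infinite_width h hw
  · exact finite_width h hw

end Pool.Agent.Results.MP_e7dab6_pr.CriticalPower
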